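import Mathlib

namespace Pool.Agent.Results.MP_769d7c_al.Q1False
open Filter Topology Monoid Monoid.CoprodI SemidirectProduct

/-- The ball `E_F[x] = {x} ∪ F x`. -/
def ball {G : Type} [Group G] (F : Set G) (x : G) : Set G := insert x ((· * x) '' F)

/-- Boundedly oscillating. -/
def BO {G : Type} [Group G] (f : G → ℝ) : Prop :=
  ∃ C > 0, ∀ F : Set G, F.Finite → ∃ B : Set G, B.Finite ∧ ∀ x ∉ B, Metric.diam (f '' ball F x) < C

/-- Slowly oscillating. -/
def SO {G : Type} [Group G] (f : G → ℝ) : Prop :=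
  ∀ F : Set G, F.Finite → ∀ ε > 0, ∃ B : Set G, B.Finite ∧ ∀ x ∉ B, Metric.diam (f '' ball F x) < ε

/-- Bounded outside a finite set. -/
def Bdd {G : Type} (f : G → ℝ) : Prop := ∃ B : Set G, B.Finite ∧ ∃ M, ∀ x ∉ B, |f x| ≤ M

lemma cnt {A : Type} {h : A → ℝ} {c : ℝ} (H : Tendsto h cofinite (𝓝 c)) :
    {a | h a ≠ c}.Countable := by
  refine H.countable_compl_preimage_ker.mono fun a h => ?_
  simpa using h

lemma pick {A : Type} [Uncountable A] {h : ℕ → A → ℝ} {c : ℕ → ℝ}
    (H : ∀ n, Tendsto (h n) cofinite (𝓝 (c n))) : ∃ a, ∀ n, h n a = c n := by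
  by_contra! q
  exact Set.not_countable_univ ((Set.countable_iUnion fun n => cnt (H n)).mono fun a _ => by
    simpa using q a)

lemma inj {A : Type} {v : ℕ → A} (h : v.Injective) : Tendsto v atTop cofinite :=
  Nat.cofinite_eq_atTop ▸ h.tendsto_cofinite

lemma seq {A : Type} {h : A → ℝ} {c : ℝ}
    (H : ∀ v : ℕ → A, v.Injective → Tendsto (fun n => h (v n)) atTop (𝓝 c)) :
    Tendsto h cofinite (𝓝 c) := fun U hU => by
  by_contra q
  let e := Set.Infinite.natEmbedding _ q
  obtain ⟨n, hn⟩ := Filter.nonempty_of_mem (mem_map.1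
    (H (fun n => e n) (Subtype.val_injective.comp e.injective) hU))
  exact (e n).2 hn

lemma lim {A : Type} [AddCommGroup A] [Uncountable A] {h : A → ℝ}
    (H : ∀ b, Tendsto (fun a => h (b + a) - h a) cofinite (𝓝 0)) :
    ∃ c, Tendsto h cofinite (𝓝 c) := by
  have k : ∀ u v : ℕ → A, u.Injective → v.Injective → ∃ c,
      Tendsto (fun n => h (u n)) atTop (𝓝 c) ∧ Tendsto (fun n => h (v n)) atTop (𝓝 c) := by
    intro u v hu hv
    obtain ⟨z, hz⟩ := pick fun n => H (if n % 2 = 0 then u (n / 2) else v (n / 2))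
    have : ∀ t : ℕ → A, t.Injective → (∀ n, h (t n + z) - h z = 0) →
        Tendsto (fun n => h (t n)) atTop (𝓝 (h z)) := fun t a b => by
      have := ((H z).comp (inj a)).const_sub (h z)
      rw [sub_zero] at this
      exact this.congr fun n => by have := b n; simp only [Function.comp, add_comm z]; linarith
    exact ⟨_, this u hu fun n => by simpa using hz (2 * n), this v hv fun n => by
      simpa [show (2 * n + 1) / 2 = n by omega] using hz (2 * n + 1)⟩
  let u := Infinite.natEmbedding A
  obtain ⟨c, hc, -⟩ := k u u u.injective u.injective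
  refine ⟨c, seq fun v hv => ?_⟩
  obtain ⟨c', h1, h2⟩ := k u v u.injective hv
  rwa [tendsto_nhds_unique hc h1]

abbrev M : Bool → Type := fun _ => Multiplicative (ℝ × ℝ)
abbrev N := CoprodI M

def o (i : Bool) (a : ℝ × ℝ) : N := of (i := i) (Multiplicative.ofAdd a)

noncomputable def L (u : ℝˣ) : N →* N :=
  lift fun i => (of (i := i)).comp (DistribSMul.toAddMonoidHom (ℝ × ℝ) u).toMultiplicative

lemma Lo (u : ℝˣ) (i a) : L u (o i a) = o i (u • a) := by simp [L, o]

noncomputable instance : MulDistribMulAction ℝˣ N where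
  smul u n := L u n
  one_smul := DFunLike.congr_fun (ext_hom (L 1) (.id _) fun i => by
    ext a; simpa [o] using Lo 1 i a)
  mul_smul u v := DFunLike.congr_fun (ext_hom (L (u * v)) ((L u).comp (L v)) fun i => by
    ext a; exact (Lo _ i a).trans <| by rw [mul_smul, ← Lo u, ← Lo v]; rfl)
  smul_mul u := map_mul (L u)
  smul_one u := map_one (L u)

lemma so (u : ℝˣ) (i a) : u • o i a = o i (u • a) := Lo u i a

abbrev G := N ⋊[MulDistribMulAction.toMulAut ℝˣ N] ℝˣ

noncomputable def j (i : Bool) (a : ℝ × ℝ) : G := inl (o i a)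

lemma jadd (i a b) : j i (a + b) = j i a * j i b := by simp [j, o]

lemma jinj (i) : (j i).Injective := fun a b h => by
  simpa using of_injective i (inl_injective h)

lemma ind {P : G → Prop} (h1 : P 1) (h2 : ∀ u y, P y → P (inr u * y))
    (h3 : ∀ i a y, P y → P (j i a * y)) (y : G) : P y := by
  rw [← inl_left_mul_inr_right y]
  induction y.left using induction_left with
  | one => simpa using h2 y.right 1 h1
  | mul m x h => rw [map_mul, mul_assoc]; exact h3 _ m.toAdd _ h

lemma sob (f : G → ℝ) (hf : SO f) : Bdd f := by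
  have H : ∀ g, Tendsto (fun x => f (g * x) - f x) cofinite (𝓝 0) := fun g =>
    Metric.tendsto_nhds.2 fun ε h => by
      obtain ⟨B, hB, h⟩ := hf {g} (Set.finite_singleton _) ε h
      refine hB.subset fun x hx => by_contra fun q => hx ?_
      have := Metric.dist_le_diam_of_mem (s := f '' ball {g} x) (x := f (g * x)) (y := f x)
        (Set.Finite.isBounded (.image _ (by simp [ball]))) (by simp [ball]) (by simp [ball])
      simpa [Real.dist_eq] using this.trans_lt (h x q)
  let T := fun i y c => Tendsto (fun a => f (j i a * y)) cofinite (𝓝 c)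
  have I : ∀ i y, Tendsto (fun a => j i a * y) cofinite cofinite := fun i y =>
    ((mul_left_injective y).comp (jinj i)).tendsto_cofinite
  have ex : ∀ i y, ∃ c, T i y c := fun i y => lim fun b => by
    simpa only [jadd, mul_assoc, Function.comp_def] using (H (j i b)).comp (I i y)
  have key : ∀ i c (v : ℕ → G), v.Injective → (∀ n, T i (v n) c) →
      Tendsto (fun n => f (v n)) atTop (𝓝 c) := fun i c v hv h => by
    obtain ⟨a, ha⟩ := pick h
    simpa [Function.comp, ha] using ((H (j i a)).comp (inj hv)).const_sub c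
  have sc : ∀ i u y c, T i y c → T i (inr u * y) c := fun i u y c h => by
    have := (((H (inr u)).comp (I i y)).add h).comp (MulAction.injective u⁻¹).tendsto_cofinite
    rw [zero_add] at this
    refine this.congr fun a => ?_
    simp only [Function.comp, sub_add_cancel, ← mul_assoc]
    congr 2
    ext <;> simp [j, so]
  have sw : ∀ i k y c, T i y c → T k y c := fun i k y c h => by
    obtain ⟨c', h'⟩ := ex k y
    let u : ℕ ↪ ℝˣ := ⟨fun n => Units.mk0 (n + 1) (by positivity), fun a b h => by simpa using h⟩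
    have hv : Function.Injective fun n => inr (u n) * y :=
      (mul_left_injective y).comp (inr_injective.comp u.injective)
    rwa [tendsto_nhds_unique (key i c _ hv fun n => sc _ _ _ _ h)
      (key k c' _ hv fun n => sc _ _ _ _ h')]
  obtain ⟨c, hc⟩ := ex true 1
  have all : ∀ y, T true y c := ind hc (fun u y => sc _ u y c) fun i a y h => sw i _ _ _ <| by
    simpa only [T, ← mul_assoc, ← jadd, Function.comp_def] using
      (sw _ i _ _ h).comp (add_left_injective a).tendsto_cofinite
  refine ⟨_, Metric.tendsto_nhds.1 (seq fun v hv => key _ c v hv fun n => all _) 1 one_pos,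
    |c| + 1, fun x hx => ?_⟩
  have : |f x - c| < 1 := by simpa [Real.dist_eq] using hx
  have := abs_add_le c (f x - c)
  simp only [add_sub_cancel] at this
  linarith

def S : ℕ → List (Σ i, M i)
  | 0 => []
  | k + 1 => ⟨decide (Even k), Multiplicative.ofAdd (1, k)⟩ :: S k

def W (k : ℕ) : Word M where
  toList := S k
  ne_one := by induction k <;> simp_all [S]
  chain_ne := by
    induction k with
    | zero => simp [S]
    | succ k ih => cases k <;> simp_all [S, Nat.even_add_one, -Nat.not_even_iff_odd]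

open Classical in
noncomputable def wd (n : N) : List (Σ i, M i) := (Word.equiv n).toList

def s (k : ℕ) : N := (W k).prod

lemma ws (n k) : wd n = S k ↔ n = s k := by
  classical
  exact ⟨fun h => (Equiv.eq_symm_apply _).2 (Word.ext h : Word.equiv n = W k), fun h => by
    rw [h]; exact congrArg Word.toList (Word.equiv.apply_symm_apply (W k))⟩

lemma ss (k) : s (k + 1) = o (decide (Even k)) (1, k) * s k := by simp [s, W, S, Word.prod, o]

lemma step (i : Bool) (a : ℝ × ℝ) (n : N) (k : ℕ) (h : ¬ S k <:+ wd n) (h' : S k <:+ wd (o i a * n)) : o i a * n = s k := by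
  classical
  have e : ∀ p : Word.Pair M i, (Word.rcons p).toList = p.tail.toList ∨
      (Word.rcons p).toList = ⟨i, p.head⟩ :: p.tail.toList := fun p => by
    unfold Word.rcons; split_ifs <;> simp [Word.cons]
  let p := Word.equivPair i (Word.equiv n)
  have e1 : wd n = (Word.rcons p).toList := by
    rw [← Word.equivPair_symm]; simp [p, wd]
  let p' : Word.Pair M i := { p with head := Multiplicative.ofAdd a * p.head }
  have e2 : wd (o i a * n) = (Word.rcons p').toList := by
    rw [← Word.of_smul_def]; simp [wd, Word.equiv, mul_smul, o]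
  have : ¬ S k <:+ p.tail.toList := fun q => h <| by
    rcases e p with r | r <;> rw [e1, r]
    exacts [q, q.trans (List.suffix_cons _ _)]
  rw [← ws]
  rcases e p' with r | r <;> rw [e2, r] at h' ⊢
  · exact absurd h' this
  · exact ((List.suffix_cons_iff.1 h').resolve_right this).symm

noncomputable def w (x : G) : N := x.right⁻¹ • x.left

lemma wm (g x : G) : w (g * x) = (g.right * x.right)⁻¹ • g.left * w x := by
  simp [w, smul_mul', mul_smul]

noncomputable def φ (x : G) : ℕ := sSup {k | S k <:+ wd (w x)}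

lemma len (k) : (S k).length = k := by induction k <;> simp_all [S]

lemma φi (x k) : k ≤ φ x ↔ S k <:+ wd (w x) := by
  have b : BddAbove {k | S k <:+ wd (w x)} := ⟨_, fun k h => len k ▸ h.length_le⟩
  refine ⟨fun h => .trans ?_ (Nat.sSup_mem ⟨0, by simp [S]⟩ b), le_csSup b⟩
  change S k <:+ S (φ x)
  generalize φ x = m at h
  induction h with
  | refl => rfl
  | step _ ih => exact ih.trans (List.suffix_cons _ _)

lemma path (g : G) : ∃ T : Set G, T.Finite ∧
    ∀ x k, ¬ (k ≤ φ x ↔ k ≤ φ (g * x)) → ∃ h ∈ T, w (h * x) = s k := by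
  induction g using ind with
  | h1 => exact ⟨∅, by simp, by simp⟩
  | h2 u y h =>
    obtain ⟨T, h1, h2⟩ := h
    exact ⟨T, h1, fun x k q => h2 x k (by simpa [φi, mul_assoc, wm (inr u)] using q)⟩
  | h3 i a y h =>
    obtain ⟨T, h1, h2⟩ := h
    refine ⟨insert y (insert (j i a * y) T), by simpa, fun x k q => ?_⟩
    by_cases r : (k ≤ φ x ↔ k ≤ φ (y * x))
    · have e : w (j i a * y * x) = o i ((y * x).right⁻¹ • a) * w (y * x) := by
        rw [mul_assoc, wm]; simp [j, so]
      rw [r, φi, φi, e] at q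
      by_cases t : S k <:+ wd (w (y * x))
      · have e' : ∀ b n, o i (-b) * (o i b * n) = n := by simp [o]
        exact ⟨y, by simp, by
          rw [← step i (-_) _ k (fun z => q (iff_of_true t z)) (by rwa [e']), e']⟩
      · exact ⟨j i a * y, by simp, e ▸ step i _ _ k t (by tauto)⟩
    · obtain ⟨h, h3, h4⟩ := h2 x k r
      exact ⟨h, by simp [h3], h4⟩

lemma sub (g : G) : {x | ∃ k, w x = s k ∧ w (g * x) = s (k + 1)}.Subsingleton := by
  rintro x ⟨k, h1, h2⟩ y ⟨l, h3, h4⟩
  rw [wm, h1, ss, mul_left_inj, inv_smul_eq_iff, so] at h2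
  rw [wm, h3, ss, mul_left_inj, inv_smul_eq_iff, so] at h4
  have := congrArg (lift fun _ => MonoidHom.id (Multiplicative (ℝ × ℝ))) (h2.symm.trans h4)
  simp only [o, lift_of, MonoidHom.id_apply, EmbeddingLike.apply_eq_iff_eq, Prod.smul_mk,
    Prod.mk.injEq, Units.smul_def, smul_eq_mul, mul_one, Units.val_inj, mul_right_inj] at this
  obtain ⟨a, b⟩ := this
  rw [a] at b
  obtain rfl : k = l := by simpa using b
  refine SemidirectProduct.ext ?_ a
  simpa [w, a] using h1.trans h3.symm

lemma near (g : G) : {x | ¬ |(φ (g * x) : ℝ) - φ x| ≤ 1}.Finite := by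
  obtain ⟨T, h1, h2⟩ := path g
  refine (h1.biUnion fun h _ => h1.biUnion fun h' _ => (sub (h' * h⁻¹)).finite.preimage
    (mul_right_injective h).injOn).subset fun x hx => ?_
  have : ¬ |(φ (g * x) : ℤ) - φ x| ≤ 1 := fun q => hx (by exact_mod_cast q)
  rw [abs_le] at this
  obtain ⟨h, a, b⟩ := h2 x (min (φ x) (φ (g * x)) + 1) (by omega)
  obtain ⟨h', a', b'⟩ := h2 x (min (φ x) (φ (g * x)) + 1 + 1) (by omega)
  simp only [Set.mem_iUnion]
  exact ⟨h, a, h', a', _, b, by simpa [mul_assoc] using b'⟩

theorem result : ∃ (G : Type) (_ : Group G),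
    (∀ f : G → ℝ, SO f → Bdd f) ∧ ¬ ∀ f : G → ℝ, BO f → Bdd f := by
  refine ⟨G, inferInstance, sob, fun h => ?_⟩
  obtain ⟨B, hB, C, hC⟩ := h (fun x => φ x) ⟨3, by norm_num, fun F hF =>
    ⟨_, hF.biUnion fun g _ => near g, fun x hx => by
      have : ∀ y ∈ ball F x, |(φ y : ℝ) - φ x| ≤ 1 := by
        rintro y (rfl | ⟨g, hg, rfl⟩)
        · simp
        · simp only [Set.mem_iUnion, not_exists] at hx
          exact not_not.1 (hx g hg)
      refine (Metric.diam_le_of_forall_dist_le (C := 2) (by norm_num) ?_).trans_lt (by norm_num)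
      rintro _ ⟨y, hy, rfl⟩ _ ⟨z, hz, rfl⟩
      have a := abs_le.1 (this y hy)
      have b := abs_le.1 (this z hz)
      rw [Real.dist_eq, abs_le]
      constructor <;> linarith⟩⟩
  obtain ⟨D, hD⟩ := (hB.image φ).bddAbove
  obtain ⟨k, hk⟩ := exists_nat_gt (max C D)
  have e : k ≤ φ (inl (s k)) := by rw [φi, (ws _ k).2 (by simp [w])]
  by_cases q : inl (s k) ∈ B
  · have := e.trans (hD ⟨_, q, rfl⟩)
    have : (k : ℝ) ≤ D := by exact_mod_cast this
    linarith [le_max_right C D]
  · have := (le_abs_self _).trans (hC _ q)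
    have : (k : ℝ) ≤ φ (inl (s k)) := by exact_mod_cast e
    linarith [le_max_left C D]

end Pool.Agent.Results.MP_769d7c_al.Q1False
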